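import Pool.Agent.Arith67.Full

/-!
Theories in one relation symbol that are definitionally equivalent to arithmetic with the true
`Pi_n` sentences and have computable nonstandard models.
-/

namespace Pool.Agent.Results.MP_f714b8_lc.LowArityModels

open FirstOrder Pool.Agent.Arith67

theorem result (n r : ℕ) (hr : 2 ≤ r) :
    ∃ T : (LOne r).Theory, HasCompNonstd (PATrue n) (LOne r) T :=
  full n r hr

end Pool.Agent.Results.MP_f714b8_lc.LowArityModels
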